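import Pool.Agent.Y935.EC.V

/-!
# The chart `z 1 ≠ 0` of a Weierstrass curve with unit discriminant is smooth
-/

set_option autoImplicit false

namespace Pool.Agent.Y935.EC

open Pool.Agent.Y223.G Polynomial

theorem ev_polyV {O : Type} [CommRing O] (Wc : WeierstrassCurve O) {C : Type} [CommRing C]
    [Algebra O C] (x w : C) (h : GV Wc x w = 0) :
    eval₂ (eval₂RingHom (algebraMap O C) w) x (gV Wc) = 0 := by
  rw [gV, Cubic.toPoly]
  simp only [eval₂_add, eval₂_sub, eval₂_mul, eval₂_pow, eval₂_X, eval₂_C, coe_eval₂RingHom,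
    map_one, eval₂_one]
  rw [GV] at h
  linear_combination -h

/-- The homomorphism given by a point. -/
noncomputable def lftV {O : Type} [CommRing O] (Wc : WeierstrassCurve O) {C : Type} [CommRing C]
    [Algebra O C] (x w : C) (h : GV Wc x w = 0) : AdjoinRoot (gV Wc) →ₐ[O] C where
  __ := AdjoinRoot.lift (eval₂RingHom (algebraMap O C) w) x (ev_polyV Wc x w h)
  commutes' r := by
    change AdjoinRoot.lift (eval₂RingHom (algebraMap O C) w) x (ev_polyV Wc x w h)
      (AdjoinRoot.of _ (Polynomial.C r)) = _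
    rw [AdjoinRoot.lift_of]
    simp

theorem lftV_mk {O : Type} [CommRing O] (Wc : WeierstrassCurve O) {C : Type} [CommRing C]
    [Algebra O C] (x w : C) (h : GV Wc x w = 0) (P : O[X][X]) :
    lftV Wc x w h (AdjoinRoot.mk _ P) = eval₂ (eval₂RingHom (algebraMap O C) w) x P := by
  change AdjoinRoot.lift (eval₂RingHom (algebraMap O C) w) x (ev_polyV Wc x w h)
    (AdjoinRoot.mk _ P) = _
  rw [AdjoinRoot.lift_mk]

theorem lftV_of {O : Type} [CommRing O] (Wc : WeierstrassCurve O) {C : Type} [CommRing C]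
    [Algebra O C] (x w : C) (h : GV Wc x w = 0) (p : O[X]) :
    lftV Wc x w h (AdjoinRoot.of _ p) = eval₂ (algebraMap O C) w p := by
  change AdjoinRoot.lift (eval₂RingHom (algebraMap O C) w) x (ev_polyV Wc x w h)
    (AdjoinRoot.of _ p) = _
  rw [AdjoinRoot.lift_of]
  rfl

theorem lftV_w {O : Type} [CommRing O] (Wc : WeierstrassCurve O) {C : Type} [CommRing C]
    [Algebra O C] (x w : C) (h : GV Wc x w = 0) :
    lftV Wc x w h (AdjoinRoot.of _ X) = w := by
  rw [lftV_of, eval₂_X]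

theorem lftV_x {O : Type} [CommRing O] (Wc : WeierstrassCurve O) {C : Type} [CommRing C]
    [Algebra O C] (x w : C) (h : GV Wc x w = 0) :
    lftV Wc x w h (AdjoinRoot.root _) = x := by
  change AdjoinRoot.lift (eval₂RingHom (algebraMap O C) w) x (ev_polyV Wc x w h)
    (AdjoinRoot.root _) = _
  rw [AdjoinRoot.lift_root]

theorem lftV_inj_field {F K : Type} [Field F] [Field K] [Algebra F K]
    (Wc : WeierstrassCurve F) (x w : K) (h : GV Wc x w = 0) (hw : Transcendental F w) :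
    Function.Injective (lftV Wc x w h) := by
  have hdom : IsDomain (AdjoinRoot (gV Wc)) :=
    AdjoinRoot.isDomain_of_prime (UniqueFactorizationMonoid.irreducible_iff_prime.1 (gV_irr Wc))
  have h0 : RingHom.ker (lftV Wc x w h : AdjoinRoot (gV Wc) →+* K) = ⊥ := by
    have hint : Algebra.IsIntegral F[X] (AdjoinRoot (gV Wc)) := by
      have : Module.Finite F[X] (AdjoinRoot (gV Wc)) := (gV_monic Wc).finite_adjoinRoot
      infer_instance
    refine Ideal.eq_bot_of_comap_eq_bot (R := F[X]) ?_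
    rw [eq_bot_iff]
    intro p hp
    have h1 : lftV Wc x w h (AdjoinRoot.of _ p) = 0 := hp
    rw [lftV_of] at h1
    by_contra hne
    exact hw ⟨p, hne, h1⟩
  exact (RingHom.injective_iff_ker_eq_bot _).2 h0

attribute [local instance] FractionRing.liftAlgebra

theorem lftV_inj {O K : Type} [CommRing O] [IsDomain O] [Field K] [Algebra O K]
    (hO : Function.Injective (algebraMap O K)) (Wc : WeierstrassCurve O) (x w : K)
    (h : GV Wc x w = 0) (hw : Transcendental O w) :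
    Function.Injective (lftV Wc x w h) := by
  have hfs : FaithfulSMul O K := (faithfulSMul_iff_algebraMap_injective O K).2 hO
  let F := FractionRing O
  let ι : O →+* F := algebraMap O F
  have hι : Function.Injective ι := IsFractionRing.injective O F
  have hF : GV (Wc.map ι) x w = 0 := by
    have e : ∀ o : O, algebraMap F K (ι o) = algebraMap O K o := fun o =>
      (IsScalarTower.algebraMap_apply O F K o).symm
    rw [GV] at h ⊢
    simp only [WeierstrassCurve.map_a₁, WeierstrassCurve.map_a₂, WeierstrassCurve.map_a₃,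
      WeierstrassCurve.map_a₄, WeierstrassCurve.map_a₆, e]
    exact h
  have hwF : Transcendental F w := by
    intro hal
    exact hw ((IsFractionRing.isAlgebraic_iff O F K).2 hal)
  have hinjF := lftV_inj_field (Wc.map ι) x w hF hwF
  rw [injective_iff_map_eq_zero]
  intro a ha
  obtain ⟨P, rfl⟩ := AdjoinRoot.mk_surjective a
  let R := P %ₘ gV Wc
  have hPR : AdjoinRoot.mk (gV Wc) P = AdjoinRoot.mk (gV Wc) R := by
    rw [AdjoinRoot.mk_eq_mk]
    refine ⟨P /ₘ gV Wc, ?_⟩
    have := modByMonic_add_div P (gV Wc)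
    rw [← this]
    change _ - P %ₘ gV Wc = _
    rw [this]
    linear_combination -this
  rw [hPR] at ha ⊢
  rw [lftV_mk] at ha
  have h1 : lftV (Wc.map ι) x w hF (AdjoinRoot.mk _ (R.map (mapRingHom ι))) = 0 := by
    rw [lftV_mk, eval₂_map, ← ha]
    congr 1
    refine Polynomial.ringHom_ext ?_ ?_
    · intro o
      simp only [RingHom.comp_apply, coe_mapRingHom, map_C, coe_eval₂RingHom, eval₂_C]
      exact (IsScalarTower.algebraMap_apply O F K o).symm
    · simp
  have h2 : AdjoinRoot.mk (gV (Wc.map ι)) (R.map (mapRingHom ι)) = 0 :=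
    hinjF (by rw [h1, map_zero])
  rw [AdjoinRoot.mk_eq_zero] at h2
  have h3 : R.map (mapRingHom ι) = 0 := by
    by_contra hne
    have h4 := degree_le_of_dvd h2 hne
    have h5 : (R.map (mapRingHom ι)).degree ≤ R.degree := degree_map_le
    have h6 : R.degree < (gV Wc).degree := degree_modByMonic_lt _ (gV_monic Wc)
    have h7 : (gV (Wc.map ι)).degree = (gV Wc).degree := by
      rw [degree_eq_natDegree (gV_monic _).ne_zero, degree_eq_natDegree (gV_monic _).ne_zero,
        gV_natDegree, gV_natDegree]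
    exact absurd (lt_of_le_of_lt (h4.trans h5) h6) (by rw [h7]; exact lt_irrefl _)
  have h8 : R = 0 := by
    refine Polynomial.map_injective (mapRingHom ι) (Polynomial.map_injective ι hι) ?_
    rw [h3, Polynomial.map_zero]
  rw [h8, map_zero]

/-- `1 / y` is transcendental. -/
theorem tr_w {O K : Type} [CommRing O] [IsDomain O] [Field K] [Algebra O K]
    (Wc : WeierstrassCurve O) (x y : K) (h : GW Wc x y = 0) (hx : Transcendental O x) :
    Transcendental O (y⁻¹) := by
  intro hal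
  have hy : IsAlgebraic O y := by
    have := hal.inv
    rwa [inv_inv] at this
  apply hx
  let L := Subalgebra.algebraicClosure O K
  have hyL : y ∈ L := hy
  have h1 : IsIntegral L x := by
    let y' : L := ⟨y, hyL⟩
    let a : O → L := algebraMap O L
    refine ⟨Cubic.toPoly ⟨1, a Wc.a₂, a Wc.a₄ - a Wc.a₁ * y', a Wc.a₆ - a Wc.a₃ * y' - y' ^ 2⟩,
      Cubic.monic_of_a_eq_one', ?_⟩
    have ea : ∀ o, algebraMap L K (a o) = algebraMap O K o := fun o => rfl
    have ey : algebraMap L K y' = y := rfl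
    rw [Cubic.toPoly]
    simp only [eval₂_add, eval₂_mul, eval₂_sub, eval₂_pow, eval₂_X, eval₂_C, eval₂_one, map_sub,
      map_mul, map_pow, ea, ey, map_one]
    rw [GW] at h
    linear_combination -h
  exact h1.isAlgebraic.restrictScalars O

theorem AZ1_le {O K : Type} [CommRing O] [Field K] [Algebra O K] (z : Fin (2 + 1) → K)
    (h2 : z 2 = 1) (hz1 : z 1 ≠ 0) (B : Subalgebra O K) (h0 : z 0 / z 1 ∈ B) (h1 : (z 1)⁻¹ ∈ B) :
    AZ O z 1 ≤ B := by
  refine Algebra.adjoin_le ?_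
  rintro _ ⟨j, rfl⟩
  fin_cases j
  · exact h0
  · change z 1 / z 1 ∈ B
    rw [div_self hz1]
    exact B.one_mem
  · change z 2 / z 1 ∈ B
    rw [h2, one_div]
    exact h1

/-- The chart `z 1 ≠ 0`. -/
theorem sm1 {O K : Type} [CommRing O] [IsDomain O] [Field K] [Algebra O K]
    (hO : Function.Injective (algebraMap O K))
    (z : Fin (2 + 1) → K) (Wc : WeierstrassCurve O) (hE : EC0 O K z Wc) (hΔ : IsUnit Wc.Δ)
    (q : Ideal (AZ O z 1)) [q.IsPrime] : Algebra.IsSmoothAt O q := by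
  have hz1 := hE.z0 1
  have hs : z 0 / z 1 ∈ AZ O z 1 := mem_AZ z 0 1
  have ht : (z 1)⁻¹ ∈ AZ O z 1 := by
    have h := mem_AZ (O := O) z 2 1
    rwa [hE.z2, one_div] at h
  have hK0 : GW Wc (z 0) (z 1) = 0 := by
    rw [GW, sub_eq_zero]
    exact hE.eq
  have hK : GV Wc (z 0 / z 1) (z 1)⁻¹ = 0 := by
    rw [GW] at hK0
    rw [GV]
    field_simp
    linear_combination hK0
  have htr : Transcendental O (z 1)⁻¹ := tr_w Wc _ _ hK0 hE.tr
  have hA : GV Wc (⟨z 0 / z 1, hs⟩ : AZ O z 1) ⟨(z 1)⁻¹, ht⟩ = 0 := by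
    apply Subtype.ext
    have h := GV_map Wc (AZ O z 1).val ⟨z 0 / z 1, hs⟩ ⟨(z 1)⁻¹, ht⟩
    exact h.trans hK
  have hle : AZ O z 1 ≤ (lftV Wc _ _ hK).range :=
    AZ1_le z hE.z2 hz1 _ ⟨_, lftV_x Wc _ _ hK⟩ ⟨_, lftV_w Wc _ _ hK⟩
  refine crit (⟨z 0 / z 1, hs⟩ : AZ O z 1) ⟨(z 1)⁻¹, ht⟩ (gen _ _ _ (AZ1_le z hE.z2 hz1 _
    (Algebra.subset_adjoin (Or.inl rfl)) (Algebra.subset_adjoin (Or.inr rfl)))) q ?_
  intro C _ _ I hI f
  obtain ⟨c1, hc1⟩ :=
    Ideal.Quotient.mk_surjective (f (algebraMap _ _ (⟨z 0 / z 1, hs⟩ : AZ O z 1)))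
  obtain ⟨c2, hc2⟩ :=
    Ideal.Quotient.mk_surjective (f (algebraMap _ _ (⟨(z 1)⁻¹, ht⟩ : AZ O z 1)))
  let F : AZ O z 1 →ₐ[O] C ⧸ I := f.comp (IsScalarTower.toAlgHom O (AZ O z 1) (Localization.AtPrime q))
  let M : C →ₐ[O] C ⧸ I := Ideal.Quotient.mkₐ O I
  have hc1' : M c1 = F ⟨z 0 / z 1, hs⟩ := hc1
  have hc2' : M c2 = F ⟨(z 1)⁻¹, ht⟩ := hc2
  have hG : GV Wc c1 c2 ∈ I := by
    rw [← Ideal.Quotient.eq_zero_iff_mem]
    change M (GV Wc c1 c2) = 0
    rw [GV_map, hc1', hc2', ← GV_map, hA, map_zero]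
  have hu : ∀ a : AZ O z 1, a ∉ q → IsUnit (F a) := by
    intro a ha
    exact (IsLocalization.map_units (Localization.AtPrime q) (⟨a, ha⟩ : q.primeCompl)).map f
  have hu' : ∀ c : C, IsUnit (M c) → IsUnit c := fun c hc =>
    (IsNilpotent.isUnit_quotient_mk_iff ⟨2, hI⟩).mp hc
  have hd : IsUnit (EX Wc c1 c2) ∨ IsUnit (EW Wc c1 c2) := by
    have hA' : GV Wc (Ideal.Quotient.mkₐ O q ⟨z 0 / z 1, hs⟩)
        (Ideal.Quotient.mkₐ O q ⟨(z 1)⁻¹, ht⟩) = 0 := by
      rw [← GV_map, hA, map_zero]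
    rcases nsV Wc hΔ _ _ hA' with h | h
    · left
      apply hu'
      rw [EX_map, hc1', hc2', ← EX_map]
      apply hu
      intro h3
      apply h
      rw [← EX_map]
      exact Ideal.Quotient.eq_zero_iff_mem.2 h3
    · right
      apply hu'
      rw [EW_map, hc1', hc2', ← EW_map]
      apply hu
      intro h3
      apply h
      rw [← EW_map]
      exact Ideal.Quotient.eq_zero_iff_mem.2 h3
  obtain ⟨x', y', h0, hx', hy'⟩ := newtonV Wc I hI c1 c2 hG hd
  obtain ⟨φ, hφ⟩ := univ (AZ O z 1) (lftV Wc _ _ hK) (lftV_inj hO Wc _ _ hK htr) hle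
    (lftV Wc x' y' h0)
  refine ⟨φ, ?_, ?_⟩
  · rw [hφ _ _ (lftV_x Wc _ _ hK), lftV_x, ← hc1]
    exact Ideal.Quotient.eq.2 hx'
  · rw [hφ _ _ (lftV_w Wc _ _ hK), lftV_w, ← hc2]
    exact Ideal.Quotient.eq.2 hy'

end Pool.Agent.Y935.EC
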