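import Pool.Agent.Y935.EC.Zero
import Pool.Agent.Y935.EC.One

/-!
# Smoothness of the charts of a Weierstrass curve with unit discriminant (`S_ECSM`)
-/

set_option autoImplicit false

namespace Pool.Agent.Y935.EC

open Pool.Agent.Y223.G

/-- **W6-ECSM.** -/
theorem t_ECSM : S_ECSM := by
  intro O K _ _ _ _ _ hO z Wc hE hΔ j q _
  fin_cases j
  · exact sm0 z Wc hE hΔ q
  · exact sm1 hO z Wc hE hΔ q
  · exact sm2 z Wc hE hΔ q

end Pool.Agent.Y935.EC
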