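import Pool.Agent.Y223.G.Stm13
import Mathlib.AlgebraicGeometry.EllipticCurve.Affine.Point

/-!
# Lifting criterion for smoothness of plane curves (general lemmas), project G of helper223
-/

set_option autoImplicit false

namespace Pool.Agent.Y935.EC

open Pool.Agent.Y223.G Polynomial

/-- The lifting criterion for smoothness at a prime of an algebra with two generators. -/
theorem crit {O A : Type} [CommRing O] [CommRing A] [Algebra O A] (s t : A)
    (hgen : Algebra.adjoin O {s, t} = ⊤) (q : Ideal A) [q.IsPrime]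
    (H : ∀ (C : Type) [CommRing C] [Algebra O C] (I : Ideal C), I ^ 2 = ⊥ →
      ∀ (f : Localization.AtPrime q →ₐ[O] C ⧸ I), ∃ φ : A →ₐ[O] C,
        Ideal.Quotient.mk I (φ s) = f (algebraMap A _ s) ∧
        Ideal.Quotient.mk I (φ t) = f (algebraMap A _ t)) : Algebra.IsSmoothAt O q := by
  refine Algebra.FormallySmooth.of_comp_surjective fun C _ _ I hI f => ?_
  obtain ⟨φ, h1, h2⟩ := H C I hI f
  have e : (Ideal.Quotient.mkₐ O I).comp φ =
      f.comp (IsScalarTower.toAlgHom O A (Localization.AtPrime q)) := by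
    refine AlgHom.ext_of_adjoin_eq_top hgen ?_
    rintro x (rfl | rfl)
    · exact h1
    · exact h2
  have key : ∀ b : A, Ideal.Quotient.mk I (φ b) = f (algebraMap A _ b) := fun b =>
    DFunLike.congr_fun e b
  have hu : ∀ y : q.primeCompl, IsUnit (φ y) := by
    intro y
    apply (IsNilpotent.isUnit_quotient_mk_iff ⟨2, hI⟩).mp
    rw [key]
    exact (IsLocalization.map_units (Localization.AtPrime q) y).map f
  refine ⟨IsLocalization.liftAlgHom (M := q.primeCompl) (f := φ) hu, ?_⟩
  apply AlgHom.coe_ringHom_injective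
  refine IsLocalization.ringHom_ext q.primeCompl ?_
  ext b
  change Ideal.Quotient.mk I (IsLocalization.lift hu (algebraMap A _ b)) = f (algebraMap A _ b)
  rw [IsLocalization.lift_eq]
  exact key b

/-- A homomorphism from a subalgebra of `K` which is the image of an injective homomorphism. -/
theorem univ {O K C P : Type} [CommRing O] [Field K] [CommRing C] [CommRing P] [Algebra O K]
    [Algebra O C] [Algebra O P] (A : Subalgebra O K) (ψ : P →ₐ[O] K)
    (hinj : Function.Injective ψ) (hr : A ≤ ψ.range) (χ : P →ₐ[O] C) :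
    ∃ φ : A →ₐ[O] C, ∀ (a : A) (p : P), ψ p = a → φ a = χ p := by
  let e : P ≃ₐ[O] ψ.range := AlgEquiv.ofInjective ψ hinj
  refine ⟨(χ.comp (e.symm : ψ.range →ₐ[O] P)).comp (Subalgebra.inclusion hr), ?_⟩
  intro a p hp
  have h1 : Subalgebra.inclusion hr a = e p := Subtype.ext hp.symm
  change χ (e.symm (Subalgebra.inclusion hr a)) = χ p
  rw [h1, e.symm_apply_apply]

/-- The value of the Weierstrass equation. -/
def GW {O : Type} [CommRing O] (Wc : WeierstrassCurve O) {C : Type} [CommRing C] [Algebra O C]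
    (x y : C) : C :=
  y ^ 2 + algebraMap O C Wc.a₁ * x * y + algebraMap O C Wc.a₃ * y -
    (x ^ 3 + algebraMap O C Wc.a₂ * x ^ 2 + algebraMap O C Wc.a₄ * x + algebraMap O C Wc.a₆)

theorem ev_poly {O : Type} [CommRing O] (Wc : WeierstrassCurve O) {C : Type} [CommRing C]
    [Algebra O C] (x y : C) (h : GW Wc x y = 0) :
    eval₂ (eval₂RingHom (algebraMap O C) x) y Wc.toAffine.polynomial = 0 := by
  rw [WeierstrassCurve.Affine.polynomial]
  simp only [eval₂_add, eval₂_sub, eval₂_mul, eval₂_pow, eval₂_X, eval₂_C, coe_eval₂RingHom]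
  rw [← h, GW]
  ring

/-- The homomorphism from the coordinate ring given by a point. -/
noncomputable def lft {O : Type} [CommRing O] (Wc : WeierstrassCurve O) {C : Type} [CommRing C]
    [Algebra O C] (x y : C) (h : GW Wc x y = 0) : Wc.toAffine.CoordinateRing →ₐ[O] C where
  __ := AdjoinRoot.lift (eval₂RingHom (algebraMap O C) x) y (ev_poly Wc x y h)
  commutes' r := by
    change AdjoinRoot.lift (eval₂RingHom (algebraMap O C) x) y (ev_poly Wc x y h)
      (AdjoinRoot.of _ (Polynomial.C r)) = _
    rw [AdjoinRoot.lift_of]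
    simp

theorem lft_of {O : Type} [CommRing O] (Wc : WeierstrassCurve O) {C : Type} [CommRing C]
    [Algebra O C] (x y : C) (h : GW Wc x y = 0) (p : O[X]) :
    lft Wc x y h (AdjoinRoot.of _ p) = eval₂ (algebraMap O C) x p := by
  change AdjoinRoot.lift (eval₂RingHom (algebraMap O C) x) y (ev_poly Wc x y h)
    (AdjoinRoot.of _ p) = _
  rw [AdjoinRoot.lift_of]
  rfl

theorem lft_x {O : Type} [CommRing O] (Wc : WeierstrassCurve O) {C : Type} [CommRing C]
    [Algebra O C] (x y : C) (h : GW Wc x y = 0) :
    lft Wc x y h (AdjoinRoot.of _ X) = x := by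
  rw [lft_of, eval₂_X]

theorem lft_y {O : Type} [CommRing O] (Wc : WeierstrassCurve O) {C : Type} [CommRing C]
    [Algebra O C] (x y : C) (h : GW Wc x y = 0) :
    lft Wc x y h (AdjoinRoot.root _) = y := by
  change AdjoinRoot.lift (eval₂RingHom (algebraMap O C) x) y (ev_poly Wc x y h)
    (AdjoinRoot.root _) = _
  rw [AdjoinRoot.lift_root]

theorem lft_inj {O K : Type} [CommRing O] [IsDomain O] [Field K] [Algebra O K]
    (Wc : WeierstrassCurve O) (x y : K) (h : GW Wc x y = 0) (hx : Transcendental O x) :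
    Function.Injective (lft Wc x y h) := by
  have h0 : RingHom.ker (lft Wc x y h : Wc.toAffine.CoordinateRing →+* K) = ⊥ := by
    have hint : Algebra.IsIntegral O[X] Wc.toAffine.CoordinateRing := by
      have : Module.Finite O[X] Wc.toAffine.CoordinateRing :=
        Module.Finite.of_basis (WeierstrassCurve.Affine.CoordinateRing.basis _)
      infer_instance
    refine Ideal.eq_bot_of_comap_eq_bot (R := O[X]) ?_
    rw [eq_bot_iff]
    intro p hp
    have h1 : lft Wc x y h (AdjoinRoot.of _ p) = 0 := hp
    rw [lft_of] at h1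
    by_contra hne
    exact hx ⟨p, hne, h1⟩
  exact (RingHom.injective_iff_ker_eq_bot _).2 h0

end Pool.Agent.Y935.EC
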