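import Pool.Agent.Y935.EC.Base

/-!
# The affine chart of a Weierstrass curve with unit discriminant is smooth
-/

set_option autoImplicit false

namespace Pool.Agent.Y935.EC

open Pool.Agent.Y223.G Polynomial

/-- partial derivative -/
def DX {O : Type} [CommRing O] (Wc : WeierstrassCurve O) {C : Type} [CommRing C] [Algebra O C]
    (x y : C) : C :=
  algebraMap O C Wc.a₁ * y - (3 * x ^ 2 + 2 * algebraMap O C Wc.a₂ * x + algebraMap O C Wc.a₄)

/-- partial derivative -/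
def DY {O : Type} [CommRing O] (Wc : WeierstrassCurve O) {C : Type} [CommRing C] [Algebra O C]
    (x y : C) : C :=
  2 * y + algebraMap O C Wc.a₁ * x + algebraMap O C Wc.a₃

section
variable {O : Type} [CommRing O] (Wc : WeierstrassCurve O) {C : Type} [CommRing C] [Algebra O C]
  {D : Type} [CommRing D] [Algebra O D]

theorem GW_map (φ : C →ₐ[O] D) (x y : C) : φ (GW Wc x y) = GW Wc (φ x) (φ y) := by
  simp only [GW, map_add, map_sub, map_mul, map_pow, AlgHom.commutes]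

theorem DX_map (φ : C →ₐ[O] D) (x y : C) : φ (DX Wc x y) = DX Wc (φ x) (φ y) := by
  simp only [DX, map_add, map_sub, map_mul, map_pow, AlgHom.commutes, map_ofNat]

theorem DY_map (φ : C →ₐ[O] D) (x y : C) : φ (DY Wc x y) = DY Wc (φ x) (φ y) := by
  simp only [DY, map_add, map_sub, map_mul, map_pow, AlgHom.commutes, map_ofNat]

theorem newton (I : Ideal C) (hI : I ^ 2 = ⊥) (x y : C) (hG : GW Wc x y ∈ I)
    (hd : IsUnit (DX Wc x y) ∨ IsUnit (DY Wc x y)) :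
    ∃ x' y' : C, GW Wc x' y' = 0 ∧ x' - x ∈ I ∧ y' - y ∈ I := by
  have hG2 : GW Wc x y * GW Wc x y = 0 := by
    have h := Ideal.pow_mem_pow hG 2
    rw [hI, Ideal.mem_bot] at h
    rw [← pow_two]
    exact h
  obtain ⟨g, hg⟩ : ∃ g, g = GW Wc x y := ⟨_, rfl⟩
  rw [← hg] at hG2 hG
  rw [GW] at hg
  rcases hd with hd | hd
  · obtain ⟨v, hv⟩ := hd.exists_right_inv
    rw [DX] at hv
    refine ⟨x - v * g, y, ?_, ?_, ?_⟩
    · rw [GW]
      linear_combination (-1) * hg + (-g) * hv +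
        (-(v ^ 2) * (3 * x + algebraMap O C Wc.a₂ - v * g)) * hG2
    · rw [sub_sub_cancel_left]
      exact I.neg_mem (I.mul_mem_left _ hG)
    · rw [sub_self]
      exact I.zero_mem
  · obtain ⟨v, hv⟩ := hd.exists_right_inv
    rw [DY] at hv
    refine ⟨x, y - v * g, ?_, ?_, ?_⟩
    · rw [GW]
      linear_combination (-1) * hg + (-g) * hv + (v ^ 2) * hG2
    · rw [sub_self]
      exact I.zero_mem
    · rw [sub_sub_cancel_left]
      exact I.neg_mem (I.mul_mem_left _ hG)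

theorem ns [Nontrivial C] (hΔ : IsUnit Wc.Δ) (x y : C) (h : GW Wc x y = 0) :
    DX Wc x y ≠ 0 ∨ DY Wc x y ≠ 0 := by
  have he : Wc.IsElliptic := ⟨hΔ⟩
  have h1 : (Wc.map (algebraMap O C)).toAffine.Equation x y := by
    rw [WeierstrassCurve.Affine.equation_iff']
    exact h
  have h2 := (WeierstrassCurve.Affine.equation_iff_nonsingular.1 h1)
  rw [WeierstrassCurve.Affine.nonsingular_iff'] at h2
  exact h2.2

end

theorem gen {O K : Type} [CommRing O] [Field K] [Algebra O K] (A : Subalgebra O K) (s t : A)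
    (h : A ≤ Algebra.adjoin O {(s : K), (t : K)}) : Algebra.adjoin O {s, t} = ⊤ := by
  rw [eq_top_iff]
  intro a _
  have h1 : (a : K) ∈ (Algebra.adjoin O {s, t}).map A.val := by
    rw [AlgHom.map_adjoin, Set.image_pair]
    exact h a.2
  obtain ⟨b, hb, hb2⟩ := h1
  have h2 : b = a := Subtype.ext hb2
  rwa [← h2]

theorem AZ2_le {O K : Type} [CommRing O] [Field K] [Algebra O K] (z : Fin (2 + 1) → K)
    (h2 : z 2 = 1) (B : Subalgebra O K) (h0 : z 0 ∈ B) (h1 : z 1 ∈ B) : AZ O z 2 ≤ B := by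
  refine Algebra.adjoin_le ?_
  rintro _ ⟨j, rfl⟩
  fin_cases j
  · change z 0 / z 2 ∈ B
    rw [h2, div_one]
    exact h0
  · change z 1 / z 2 ∈ B
    rw [h2, div_one]
    exact h1
  · change z 2 / z 2 ∈ B
    rw [h2, div_one]
    exact B.one_mem

theorem mem_AZ {O K : Type} [CommRing O] [Field K] [Algebra O K] (z : Fin (2 + 1) → K)
    (i j : Fin (2 + 1)) : z i / z j ∈ AZ O z j :=
  Algebra.subset_adjoin ⟨i, rfl⟩

/-- The affine chart. -/
theorem sm2 {O K : Type} [CommRing O] [IsDomain O] [Field K] [Algebra O K]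
    (z : Fin (2 + 1) → K) (Wc : WeierstrassCurve O) (hE : EC0 O K z Wc) (hΔ : IsUnit Wc.Δ)
    (q : Ideal (AZ O z 2)) [q.IsPrime] : Algebra.IsSmoothAt O q := by
  have hs : z 0 ∈ AZ O z 2 := by
    have h := mem_AZ (O := O) z 0 2
    rwa [hE.z2, div_one] at h
  have ht : z 1 ∈ AZ O z 2 := by
    have h := mem_AZ (O := O) z 1 2
    rwa [hE.z2, div_one] at h
  have hK : GW Wc (z 0) (z 1) = 0 := by
    rw [GW, sub_eq_zero]
    exact hE.eq
  have hA : GW Wc (⟨z 0, hs⟩ : AZ O z 2) ⟨z 1, ht⟩ = 0 := by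
    apply Subtype.ext
    have h := GW_map Wc (AZ O z 2).val ⟨z 0, hs⟩ ⟨z 1, ht⟩
    exact h.trans hK
  have hle : AZ O z 2 ≤ (lft Wc (z 0) (z 1) hK).range :=
    AZ2_le z hE.z2 _ ⟨_, lft_x Wc _ _ hK⟩ ⟨_, lft_y Wc _ _ hK⟩
  refine crit (⟨z 0, hs⟩ : AZ O z 2) ⟨z 1, ht⟩ (gen _ _ _ (AZ2_le z hE.z2 _
    (Algebra.subset_adjoin (Or.inl rfl)) (Algebra.subset_adjoin (Or.inr rfl)))) q ?_
  intro C _ _ I hI f
  obtain ⟨c1, hc1⟩ := Ideal.Quotient.mk_surjective (f (algebraMap _ _ (⟨z 0, hs⟩ : AZ O z 2)))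
  obtain ⟨c2, hc2⟩ := Ideal.Quotient.mk_surjective (f (algebraMap _ _ (⟨z 1, ht⟩ : AZ O z 2)))
  let F : AZ O z 2 →ₐ[O] C ⧸ I := f.comp (IsScalarTower.toAlgHom O (AZ O z 2) (Localization.AtPrime q))
  let M : C →ₐ[O] C ⧸ I := Ideal.Quotient.mkₐ O I
  have hc1' : M c1 = F ⟨z 0, hs⟩ := hc1
  have hc2' : M c2 = F ⟨z 1, ht⟩ := hc2
  have hG : GW Wc c1 c2 ∈ I := by
    rw [← Ideal.Quotient.eq_zero_iff_mem]
    change M (GW Wc c1 c2) = 0
    rw [GW_map, hc1', hc2', ← GW_map, hA, map_zero]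
  have hu : ∀ a : AZ O z 2, a ∉ q → IsUnit (F a) := by
    intro a ha
    exact (IsLocalization.map_units (Localization.AtPrime q) (⟨a, ha⟩ : q.primeCompl)).map f
  have hu' : ∀ c : C, IsUnit (M c) → IsUnit c := fun c hc =>
    (IsNilpotent.isUnit_quotient_mk_iff ⟨2, hI⟩).mp hc
  have hd : IsUnit (DX Wc c1 c2) ∨ IsUnit (DY Wc c1 c2) := by
    have hA' : GW Wc (Ideal.Quotient.mkₐ O q ⟨z 0, hs⟩) (Ideal.Quotient.mkₐ O q ⟨z 1, ht⟩) = 0 := by
      rw [← GW_map, hA, map_zero]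
    rcases ns Wc hΔ _ _ hA' with h | h
    · left
      apply hu'
      rw [DX_map, hc1', hc2', ← DX_map]
      apply hu
      intro h3
      apply h
      rw [← DX_map]
      exact Ideal.Quotient.eq_zero_iff_mem.2 h3
    · right
      apply hu'
      rw [DY_map, hc1', hc2', ← DY_map]
      apply hu
      intro h3
      apply h
      rw [← DY_map]
      exact Ideal.Quotient.eq_zero_iff_mem.2 h3
  obtain ⟨x', y', h0, hx', hy'⟩ := newton Wc I hI c1 c2 hG hd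
  obtain ⟨φ, hφ⟩ := univ (AZ O z 2) (lft Wc (z 0) (z 1) hK) (lft_inj Wc _ _ hK hE.tr) hle
    (lft Wc x' y' h0)
  refine ⟨φ, ?_, ?_⟩
  · rw [hφ _ _ (lft_x Wc _ _ hK), lft_x, ← hc1]
    exact Ideal.Quotient.eq.2 hx'
  · rw [hφ _ _ (lft_y Wc _ _ hK), lft_y, ← hc2]
    exact Ideal.Quotient.eq.2 hy'

end Pool.Agent.Y935.EC
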