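import Pool.Agent.Y935.EC.Two

/-!
# The equation of a Weierstrass curve near infinity
-/

set_option autoImplicit false

namespace Pool.Agent.Y935.EC

open Pool.Agent.Y223.G Polynomial

/-- The value of the Weierstrass equation in the chart `z 1 ≠ 0`. -/
def GV {O : Type} [CommRing O] (Wc : WeierstrassCurve O) {C : Type} [CommRing C] [Algebra O C]
    (x w : C) : C :=
  w + algebraMap O C Wc.a₁ * x * w + algebraMap O C Wc.a₃ * w ^ 2 -
    (x ^ 3 + algebraMap O C Wc.a₂ * x ^ 2 * w + algebraMap O C Wc.a₄ * x * w ^ 2 +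
      algebraMap O C Wc.a₆ * w ^ 3)

/-- partial derivative -/
def EX {O : Type} [CommRing O] (Wc : WeierstrassCurve O) {C : Type} [CommRing C] [Algebra O C]
    (x w : C) : C :=
  algebraMap O C Wc.a₁ * w - (3 * x ^ 2 + 2 * algebraMap O C Wc.a₂ * x * w +
    algebraMap O C Wc.a₄ * w ^ 2)

/-- partial derivative -/
def EW {O : Type} [CommRing O] (Wc : WeierstrassCurve O) {C : Type} [CommRing C] [Algebra O C]
    (x w : C) : C :=
  1 + algebraMap O C Wc.a₁ * x + 2 * algebraMap O C Wc.a₃ * w -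
    (algebraMap O C Wc.a₂ * x ^ 2 + 2 * algebraMap O C Wc.a₄ * x * w +
      3 * algebraMap O C Wc.a₆ * w ^ 2)

section
variable {O : Type} [CommRing O] (Wc : WeierstrassCurve O) {C : Type} [CommRing C] [Algebra O C]
  {D : Type} [CommRing D] [Algebra O D]

theorem GV_map (φ : C →ₐ[O] D) (x y : C) : φ (GV Wc x y) = GV Wc (φ x) (φ y) := by
  simp only [GV, map_add, map_sub, map_mul, map_pow, AlgHom.commutes]

theorem EX_map (φ : C →ₐ[O] D) (x y : C) : φ (EX Wc x y) = EX Wc (φ x) (φ y) := by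
  simp only [EX, map_add, map_sub, map_mul, map_pow, AlgHom.commutes, map_ofNat]

theorem EW_map (φ : C →ₐ[O] D) (x y : C) : φ (EW Wc x y) = EW Wc (φ x) (φ y) := by
  simp only [EW, map_add, map_sub, map_mul, map_pow, AlgHom.commutes, map_ofNat, map_one]

theorem newtonV (I : Ideal C) (hI : I ^ 2 = ⊥) (x y : C) (hG : GV Wc x y ∈ I)
    (hd : IsUnit (EX Wc x y) ∨ IsUnit (EW Wc x y)) :
    ∃ x' y' : C, GV Wc x' y' = 0 ∧ x' - x ∈ I ∧ y' - y ∈ I := by
  have hG2 : GV Wc x y * GV Wc x y = 0 := by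
    have h := Ideal.pow_mem_pow hG 2
    rw [hI, Ideal.mem_bot] at h
    rw [← pow_two]
    exact h
  obtain ⟨g, hg⟩ : ∃ g, g = GV Wc x y := ⟨_, rfl⟩
  rw [← hg] at hG2 hG
  rw [GV] at hg
  rcases hd with hd | hd
  · obtain ⟨v, hv⟩ := hd.exists_right_inv
    rw [EX] at hv
    refine ⟨x - v * g, y, ?_, ?_, ?_⟩
    · rw [GV]
      linear_combination (-1) * hg + (-g) * hv +
        (-(v ^ 2) * (3 * x + algebraMap O C Wc.a₂ * y - v * g)) * hG2
    · rw [sub_sub_cancel_left]
      exact I.neg_mem (I.mul_mem_left _ hG)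
    · rw [sub_self]
      exact I.zero_mem
  · obtain ⟨v, hv⟩ := hd.exists_right_inv
    rw [EW] at hv
    refine ⟨x, y - v * g, ?_, ?_, ?_⟩
    · rw [GV]
      linear_combination (-1) * hg + (-g) * hv + (v ^ 2 * (algebraMap O C Wc.a₃ -
        algebraMap O C Wc.a₄ * x - 3 * algebraMap O C Wc.a₆ * y +
        algebraMap O C Wc.a₆ * (v * g))) * hG2
    · rw [sub_self]
      exact I.zero_mem
    · rw [sub_sub_cancel_left]
      exact I.neg_mem (I.mul_mem_left _ hG)

theorem nsV [IsDomain C] (hΔ : IsUnit Wc.Δ) (x w : C) (h : GV Wc x w = 0) :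
    EX Wc x w ≠ 0 ∨ EW Wc x w ≠ 0 := by
  by_contra hcon
  push Not at hcon
  obtain ⟨hX, hW⟩ := hcon
  let ι : C →ₐ[O] FractionRing C := IsScalarTower.toAlgHom O C (FractionRing C)
  have hι : Function.Injective ι := IsFractionRing.injective C (FractionRing C)
  by_cases hw : w = 0
  · subst hw
    rw [GV] at h
    have hx : x = 0 := by
      have h1 : x ^ 3 = 0 := by linear_combination -h
      exact pow_eq_zero_iff (by norm_num) |>.1 h1
    subst hx
    rw [EW] at hW
    apply one_ne_zero (α := C)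
    linear_combination hW
  · have hE : (2 : C) + algebraMap O C Wc.a₁ * x + algebraMap O C Wc.a₃ * w = 0 := by
      apply (mul_eq_zero.1 ?_).resolve_left hw
      rw [GV] at h
      rw [EX] at hX
      rw [EW] at hW
      linear_combination 3 * h - x * hX - w * hW
    have h' : GV Wc (ι x) (ι w) = 0 := by rw [← GV_map, h, map_zero]
    have hX' : EX Wc (ι x) (ι w) = 0 := by rw [← EX_map, hX, map_zero]
    have hE' : (2 : FractionRing C) + algebraMap O _ Wc.a₁ * ι x + algebraMap O _ Wc.a₃ * ι w = 0 := by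
      have h1 := congrArg ι hE
      simpa only [map_add, map_mul, AlgHom.commutes, map_ofNat, map_zero] using h1
    have hw' : ι w ≠ 0 := fun h => hw (hι (by rw [h, map_zero]))
    have hG : GW Wc (ι x / ι w) (1 / ι w) = 0 := by
      rw [GV] at h'
      rw [GW]
      field_simp
      linear_combination h'
    rcases ns Wc hΔ _ _ hG with h1 | h1
    · apply h1
      rw [EX] at hX'
      rw [DX]
      field_simp
      linear_combination hX'
    · apply h1
      rw [DY]
      field_simp
      linear_combination hE'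

end

/-- The cubic polynomial in the chart `z 1 ≠ 0`. -/
noncomputable def gV {R : Type} [CommRing R] (W : WeierstrassCurve R) : R[X][X] :=
  Cubic.toPoly ⟨1, C W.a₂ * X, C W.a₄ * X ^ 2 - C W.a₁ * X, C W.a₆ * X ^ 3 - C W.a₃ * X ^ 2 - X⟩

theorem gV_monic {R : Type} [CommRing R] (W : WeierstrassCurve R) : (gV W).Monic :=
  Cubic.monic_of_a_eq_one'

theorem gV_natDegree {R : Type} [CommRing R] [Nontrivial R] (W : WeierstrassCurve R) :
    (gV W).natDegree = 3 :=
  Cubic.natDegree_of_a_ne_zero' one_ne_zero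

theorem gV_map {R S : Type} [CommRing R] [CommRing S] (W : WeierstrassCurve R) (f : R →+* S) :
    (gV W).map (mapRingHom f) = gV (W.map f) := by
  rw [gV, gV, Cubic.toPoly, Cubic.toPoly]
  simp

theorem gV_irr {F : Type} [Field F] (W : WeierstrassCurve F) : Irreducible (gV W) := by
  have hP : (Ideal.span {(X : F[X])}).IsPrime := by
    rw [Ideal.span_singleton_prime X_ne_zero]
    exact Polynomial.prime_X
  have hE : (gV W).IsEisensteinAt (Ideal.span {(X : F[X])}) := by
    refine ⟨?_, ?_, ?_⟩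
    · rw [(gV_monic W).leadingCoeff]
      exact (Ideal.ne_top_iff_one _).1 hP.ne_top
    · intro n hn
      rw [gV_natDegree] at hn
      rw [Ideal.mem_span_singleton]
      interval_cases n
      · rw [gV, Cubic.coeff_eq_d]
        exact ⟨C W.a₆ * X ^ 2 - C W.a₃ * X - 1, by ring⟩
      · rw [gV, Cubic.coeff_eq_c]
        exact ⟨C W.a₄ * X - C W.a₁, by ring⟩
      · rw [gV, Cubic.coeff_eq_b]
        exact ⟨C W.a₂, by ring⟩
    · rw [gV, Cubic.coeff_eq_d, Ideal.span_singleton_pow, Ideal.mem_span_singleton]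
      rintro ⟨r, hr⟩
      have h1 := congrArg (fun p => p.coeff 1) hr
      simp [Polynomial.coeff_X_pow, Polynomial.coeff_X_pow_mul', Polynomial.coeff_X] at h1
  refine hE.irreducible hP (gV_monic W).isPrimitive ?_
  rw [gV_natDegree]
  norm_num

end Pool.Agent.Y935.EC
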