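import Pool.Agent.Y935.EC.Two

/-!
# The chart `z 0 ≠ 0` of a Weierstrass curve with unit discriminant is smooth
-/

set_option autoImplicit false

namespace Pool.Agent.Y935.EC

open Pool.Agent.Y223.G Polynomial

/-- Smoothness passes to a ring of fractions. -/
theorem loc {O K : Type} [CommRing O] [Field K] [Algebra O K] (B A : Subalgebra O K) (hBA : B ≤ A)
    (q : Ideal A) [q.IsPrime] (p : Ideal B) [p.IsPrime]
    (hp : ∀ b : B, b ∈ p ↔ Subalgebra.inclusion hBA b ∈ q)
    (hd : ∀ a : A, ∃ b d : B, Subalgebra.inclusion hBA d ∉ q ∧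
      a * Subalgebra.inclusion hBA d = Subalgebra.inclusion hBA b)
    (H : Algebra.IsSmoothAt O p) : Algebra.IsSmoothAt O q := by
  have hinjA : Function.Injective (algebraMap A (Localization.AtPrime q)) :=
    IsLocalization.injective _ q.primeCompl_le_nonZeroDivisors
  let f : B →ₐ[O] Localization.AtPrime q :=
    (IsScalarTower.toAlgHom O A (Localization.AtPrime q)).comp (Subalgebra.inclusion hBA)
  have hfu : ∀ y : p.primeCompl, IsUnit (f y) := by
    intro y
    have h1 : Subalgebra.inclusion hBA (y : B) ∈ q.primeCompl := fun h => y.2 ((hp _).2 h)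
    exact IsLocalization.map_units (Localization.AtPrime q) ⟨_, h1⟩
  let j : Localization.AtPrime p →ₐ[O] Localization.AtPrime q :=
    IsLocalization.liftAlgHom (M := p.primeCompl) (f := f) hfu
  have hj : ∀ b : B, j (algebraMap B _ b) = algebraMap A _ (Subalgebra.inclusion hBA b) := by
    intro b
    exact IsLocalization.lift_eq _ _
  have hinj : Function.Injective j := by
    rw [injective_iff_map_eq_zero]
    intro x hx
    obtain ⟨⟨b, d⟩, hbd⟩ := IsLocalization.surj (M := p.primeCompl) x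
    have h1 : j x * j (algebraMap B _ (d : B)) = j (algebraMap B _ b) := by
      rw [← map_mul, hbd]
    rw [hx, zero_mul, hj] at h1
    have h2 : Subalgebra.inclusion hBA b = 0 := hinjA (by rw [← h1, map_zero])
    have h3 : b = 0 := Subalgebra.inclusion_injective hBA (by rw [h2, map_zero])
    have h4 : x * algebraMap B _ (d : B) = 0 := by
      rw [hbd]
      change algebraMap B _ b = 0
      rw [h3, map_zero]
    exact (IsLocalization.map_units (Localization.AtPrime p) d).mul_left_eq_zero.1 h4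
  have hsurj : Function.Surjective j := by
    intro y
    obtain ⟨⟨a, e⟩, hae⟩ := IsLocalization.surj (M := q.primeCompl) y
    obtain ⟨b1, d1, hd1, h1⟩ := hd a
    obtain ⟨b2, d2, hd2, h2⟩ := hd (e : A)
    have hb2 : Subalgebra.inclusion hBA b2 ∉ q := by
      rw [← h2]
      intro h
      rcases Ideal.IsPrime.mem_or_mem inferInstance h with h | h
      · exact e.2 h
      · exact hd2 h
    have hc : d1 * b2 ∈ p.primeCompl := by
      intro h
      have h3 := (hp _).1 h
      rw [map_mul] at h3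
      rcases Ideal.IsPrime.mem_or_mem inferInstance h3 with h | h
      · exact hd1 h
      · exact hb2 h
    have hcu : IsUnit (algebraMap A (Localization.AtPrime q) (Subalgebra.inclusion hBA (d1 * b2))) := by
      have h1 : Subalgebra.inclusion hBA (d1 * b2) ∈ q.primeCompl := fun h => hc ((hp _).2 h)
      exact IsLocalization.map_units (Localization.AtPrime q) ⟨_, h1⟩
    refine ⟨IsLocalization.mk' _ (b1 * d2) (⟨d1 * b2, hc⟩ : p.primeCompl), ?_⟩
    have h5 : j (IsLocalization.mk' _ (b1 * d2) (⟨d1 * b2, hc⟩ : p.primeCompl)) *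
        algebraMap A _ (Subalgebra.inclusion hBA (d1 * b2)) =
        algebraMap A _ (Subalgebra.inclusion hBA (b1 * d2)) := by
      rw [← hj, ← hj, ← map_mul]
      congr 1
      exact IsLocalization.mk'_spec _ _ _
    have h6 : y * algebraMap A _ (Subalgebra.inclusion hBA (d1 * b2)) =
        algebraMap A _ (Subalgebra.inclusion hBA (b1 * d2)) := by
      rw [map_mul (Subalgebra.inclusion hBA), map_mul (Subalgebra.inclusion hBA), ← h1, ← h2,
        map_mul (algebraMap A _), map_mul (algebraMap A _), map_mul (algebraMap A _),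
        map_mul (algebraMap A _), ← hae]
      ring
    exact hcu.mul_right_cancel (h5.trans h6.symm)
  exact Algebra.FormallySmooth.of_equiv (AlgEquiv.ofBijective j ⟨hinj, hsurj⟩)

/-- The chart `z 0 ≠ 0`. -/
theorem sm0 {O K : Type} [CommRing O] [IsDomain O] [Field K] [Algebra O K]
    (z : Fin (2 + 1) → K) (Wc : WeierstrassCurve O) (hE : EC0 O K z Wc) (hΔ : IsUnit Wc.Δ)
    (q : Ideal (AZ O z 0)) [q.IsPrime] : Algebra.IsSmoothAt O q := by
  have hy : z 1 / z 0 ∈ AZ O z 0 := mem_AZ z 1 0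
  have hw : (z 0)⁻¹ ∈ AZ O z 0 := by
    have h := mem_AZ (O := O) z 2 0
    rwa [hE.z2, one_div] at h
  have hz0 := hE.z0 0
  have ha : ∀ o : O, algebraMap O K o ∈ AZ O z 0 := fun o => Subalgebra.algebraMap_mem _ o
  have h0 : z 0 ∈ AZ O z 0 := by
    have h1 : z 0 = (z 1 / z 0) ^ 2 + algebraMap O K Wc.a₁ * (z 1 / z 0) +
        algebraMap O K Wc.a₃ * (z 1 / z 0) * (z 0)⁻¹ - algebraMap O K Wc.a₂ -
        algebraMap O K Wc.a₄ * (z 0)⁻¹ - algebraMap O K Wc.a₆ * (z 0)⁻¹ ^ 2 := by
      have h2 := hE.eq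
      field_simp
      linear_combination -h2
    rw [h1]
    exact sub_mem (sub_mem (sub_mem (add_mem (add_mem (pow_mem hy 2) (mul_mem (ha _) hy))
      (mul_mem (mul_mem (ha _) hy) hw)) (ha _)) (mul_mem (ha _) hw)) (mul_mem (ha _) (pow_mem hw 2))
  have h1 : z 1 ∈ AZ O z 0 := by
    have h2 : z 1 = z 1 / z 0 * z 0 := by rw [div_mul_cancel₀ _ hz0]
    rw [h2]
    exact mul_mem hy h0
  have hBA : AZ O z 2 ≤ AZ O z 0 := AZ2_le z hE.z2 _ h0 h1
  have hs : z 0 ∈ AZ O z 2 := by
    have h := mem_AZ (O := O) z 0 2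
    rwa [hE.z2, div_one] at h
  have ht : z 1 ∈ AZ O z 2 := by
    have h := mem_AZ (O := O) z 1 2
    rwa [hE.z2, div_one] at h
  have hfr : ∀ a ∈ AZ O z 0, ∃ n : ℕ, a * z 0 ^ n ∈ AZ O z 2 := by
    intro a ha
    unfold AZ at ha
    induction ha using Algebra.adjoin_induction with
    | mem x hx =>
      obtain ⟨i, rfl⟩ := hx
      refine ⟨1, ?_⟩
      change z i / z 0 * z 0 ^ 1 ∈ _
      rw [pow_one, div_mul_cancel₀ _ hz0]
      fin_cases i
      · exact hs
      · exact ht
      · change z 2 ∈ _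
        rw [hE.z2]
        exact one_mem _
    | algebraMap r =>
      refine ⟨0, ?_⟩
      rw [pow_zero, mul_one]
      exact Subalgebra.algebraMap_mem _ _
    | add x y _ _ hx hy =>
      obtain ⟨n, hn⟩ := hx
      obtain ⟨m, hm⟩ := hy
      refine ⟨n + m, ?_⟩
      have h : (x + y) * z 0 ^ (n + m) = x * z 0 ^ n * z 0 ^ m + y * z 0 ^ m * z 0 ^ n := by ring
      rw [h]
      exact add_mem (mul_mem hn (pow_mem hs m)) (mul_mem hm (pow_mem hs n))
    | mul x y _ _ hx hy =>
      obtain ⟨n, hn⟩ := hx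
      obtain ⟨m, hm⟩ := hy
      refine ⟨n + m, ?_⟩
      have h : (x * y) * z 0 ^ (n + m) = (x * z 0 ^ n) * (y * z 0 ^ m) := by ring
      rw [h]
      exact mul_mem hn hm
  have hq : ∀ n : ℕ, Subalgebra.inclusion hBA ⟨z 0 ^ n, pow_mem hs n⟩ ∉ q := by
    intro n h
    have h3 : Subalgebra.inclusion hBA ⟨z 0 ^ n, pow_mem hs n⟩ = (⟨z 0, h0⟩ : AZ O z 0) ^ n := by
      apply Subtype.ext
      rw [SubmonoidClass.coe_pow]
      rfl
    rw [h3] at h
    have h4 := Ideal.IsPrime.mem_of_pow_mem inferInstance n h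
    have h5 : (⟨(z 0)⁻¹, hw⟩ : AZ O z 0) * ⟨z 0, h0⟩ = 1 := by
      apply Subtype.ext
      rw [MulMemClass.coe_mul]
      exact inv_mul_cancel₀ hz0
    apply Ideal.IsPrime.ne_top (I := q) inferInstance
    rw [Ideal.eq_top_iff_one, ← h5]
    exact q.mul_mem_left _ h4
  have key : ∀ a : AZ O z 0, ∃ b d : AZ O z 2, Subalgebra.inclusion hBA d ∉ q ∧
      a * Subalgebra.inclusion hBA d = Subalgebra.inclusion hBA b := by
    intro a
    obtain ⟨n, hn⟩ := hfr a a.2
    refine ⟨⟨(a : K) * z 0 ^ n, hn⟩, ⟨z 0 ^ n, pow_mem hs n⟩, hq n, Subtype.ext ?_⟩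
    rw [MulMemClass.coe_mul, Subalgebra.coe_inclusion, Subalgebra.coe_inclusion]
  have hp : (q.comap (Subalgebra.inclusion hBA : AZ O z 2 →+* AZ O z 0)).IsPrime :=
    Ideal.IsPrime.comap _
  have hsm := sm2 z Wc hE hΔ (q.comap (Subalgebra.inclusion hBA : AZ O z 2 →+* AZ O z 0))
  exact loc (AZ O z 2) (AZ O z 0) hBA q
    (q.comap (Subalgebra.inclusion hBA : AZ O z 2 →+* AZ O z 0)) (fun b => Ideal.mem_comap) key hsm

end Pool.Agent.Y935.EC
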